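import Mathlib
import Pool.Agent.L5helper13.TQ.MainGen

set_option autoImplicit false

namespace Pool.Agent.Results.MP_51eb24_ag.LinearPlusHomogeneous

/-- Over a field of characteristic zero, every algebraic action of a torus on affine `n`-space
by automorphisms of the form linear plus homogeneous of degree `D` is linearizable. -/
theorem result :
    ∀ (k : Type) [Field k] [CharZero k] (n d D : ℕ), 2 ≤ D →
      ∀ ρ : (Fin d → kˣ) →* (MvPolynomial (Fin n) k ≃ₐ[k] MvPolynomial (Fin n) k),
        (∃ (m : ℕ) (F : Fin n → MvPolynomial (Fin d ⊕ Fin n) k),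
          ∀ (t : Fin d → kˣ) (j : Fin n),
            MvPolynomial.C ((∏ i, ((t i : kˣ) : k)) ^ m) * ρ t (MvPolynomial.X j) =
              MvPolynomial.aeval
                (Sum.elim (fun i : Fin d => MvPolynomial.C ((t i : kˣ) : k))
                  (fun l : Fin n => (MvPolynomial.X l : MvPolynomial (Fin n) k))) (F j)) →
        (∀ (t : Fin d → kˣ) (j : Fin n), ∃ L H : MvPolynomial (Fin n) k,
          L.IsHomogeneous 1 ∧ H.IsHomogeneous D ∧ ρ t (MvPolynomial.X j) = L + H) →
        ∃ φ : MvPolynomial (Fin n) k ≃ₐ[k] MvPolynomial (Fin n) k,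
          ∀ (t : Fin d → kˣ) (j : Fin n),
            ((φ * ρ t * φ⁻¹) (MvPolynomial.X j)).IsHomogeneous 1 := by
  intro k _ _ n d D hD ρ halg hdeg
  exact Pool.Agent.L5helper13.TQ.main_gen k n d D hD ρ halg hdeg

end Pool.Agent.Results.MP_51eb24_ag.LinearPlusHomogeneous
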